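import Mathlib
import Pool.Agent.Helper60.Pack.Defs

set_option autoImplicit false

/-!
MP_be0db5_co, block P2: the two minor conditions are inherited by subgraphs, induced subgraphs and
by the contraction of an edge.
-/

namespace Pool.Agent.Helper60.Pack

/-- a model of the graph `H` as a minor of `G`: pairwise disjoint connected branch sets -/
structure Model {V W : Type} (G : SimpleGraph V) (H : SimpleGraph W) (φ : W → Set V) : Prop where
  conn : ∀ w, (G.induce (φ w)).Connected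
  disj : ∀ x y, x ≠ y → Disjoint (φ x) (φ y)
  adj : ∀ x y, H.Adj x y → ∃ a ∈ φ x, ∃ b ∈ φ y, G.Adj a b

namespace Model

variable {V W : Type} {G : SimpleGraph V} {H : SimpleGraph W} {φ : W → Set V}

/-- the union of the branch sets over a set of vertices -/
def lift (φ : W → Set V) (S : Set W) : Set V := {a | ∃ w ∈ S, a ∈ φ w}

theorem mem_lift {S : Set W} {w : W} {a : V} (hw : w ∈ S) (ha : a ∈ φ w) : a ∈ lift φ S :=
  ⟨w, hw, ha⟩

theorem reach_same (hφ : Model G H φ) (S : Set W) {w : W} (hw : w ∈ S) {a b : V}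
    (ha : a ∈ φ w) (hb : b ∈ φ w) :
    (G.induce (lift φ S)).Reachable ⟨a, mem_lift hw ha⟩ ⟨b, mem_lift hw hb⟩ := by
  have hle : φ w ⊆ lift φ S := fun x hx => mem_lift hw hx
  have h := (hφ.conn w).preconnected ⟨a, ha⟩ ⟨b, hb⟩
  exact h.map (SimpleGraph.induceHomOfLE G hle).toHom

theorem reach_adj (hφ : Model G H φ) (S : Set W) {x y : W} (hx : x ∈ S) (hy : y ∈ S)
    (hxy : H.Adj x y) {a b : V} (ha : a ∈ φ x) (hb : b ∈ φ y) :
    (G.induce (lift φ S)).Reachable ⟨a, mem_lift hx ha⟩ ⟨b, mem_lift hy hb⟩ := by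
  obtain ⟨p, hp, q, hq, hpq⟩ := hφ.adj x y hxy
  have h1 := hφ.reach_same S hx ha hp
  have h3 := hφ.reach_same S hy hq hb
  have h2 : (G.induce (lift φ S)).Adj ⟨p, mem_lift hx hp⟩ ⟨q, mem_lift hy hq⟩ := hpq
  exact h1.trans (h2.reachable.trans h3)

theorem reach_walk (hφ : Model G H φ) (S : Set W) {x y : S} (w : (H.induce S).Walk x y)
    {a b : V} (ha : a ∈ φ x) (hb : b ∈ φ y) :
    (G.induce (lift φ S)).Reachable ⟨a, mem_lift x.2 ha⟩ ⟨b, mem_lift y.2 hb⟩ := by
  induction w generalizing a with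
  | nil => exact hφ.reach_same S (Subtype.prop _) ha hb
  | @cons u v w h p ih =>
    obtain ⟨c, hc⟩ := (hφ.conn v).nonempty
    exact (hφ.reach_adj S u.2 v.2 h ha hc).trans (ih hc hb)

theorem lift_conn (hφ : Model G H φ) (S : Set W) (hS : (H.induce S).Connected) :
    (G.induce (lift φ S)).Connected := by
  have hne : Nonempty (lift φ S) := by
    obtain ⟨w⟩ := hS.nonempty
    obtain ⟨c⟩ := (hφ.conn w).nonempty
    exact ⟨⟨c, mem_lift w.2 c.2⟩⟩
  refine ⟨?_⟩
  rintro ⟨a, x, hx, ha⟩ ⟨b, y, hy, hb⟩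
  obtain ⟨w⟩ := hS.preconnected ⟨x, hx⟩ ⟨y, hy⟩
  exact hφ.reach_walk S w ha hb

theorem lift_disj (hφ : Model G H φ) (S T : Set W) (hST : Disjoint S T) :
    Disjoint (lift φ S) (lift φ T) := by
  rw [Set.disjoint_left]
  rintro a ⟨x, hx, hax⟩ ⟨y, hy, hay⟩
  by_cases h : x = y
  · subst h
    exact Set.disjoint_left.1 hST hx hy
  · exact Set.disjoint_left.1 (hφ.disj x y h) hax hay

theorem lift_adj (hφ : Model G H φ) (S T : Set W) (h : ∃ x ∈ S, ∃ y ∈ T, H.Adj x y) :
    ∃ a ∈ lift φ S, ∃ b ∈ lift φ T, G.Adj a b := by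
  obtain ⟨x, hx, y, hy, hxy⟩ := h
  obtain ⟨a, ha, b, hb, hab⟩ := hφ.adj x y hxy
  exact ⟨a, mem_lift hx ha, b, mem_lift hy hb, hab⟩

theorem noK5 (hφ : Model G H φ) (h : NoK5 G) : NoK5 H := by
  rintro ⟨f, h1, h2, h3⟩
  exact h ⟨fun i => lift φ (f i), fun i => hφ.lift_conn _ (h1 i),
    fun i j hij => hφ.lift_disj _ _ (h2 i j hij), fun i j hij => hφ.lift_adj _ _ (h3 i j hij)⟩

theorem noK33 (hφ : Model G H φ) (h : NoK33 G) : NoK33 H := by
  rintro ⟨f, h1, h2, h3⟩
  exact h ⟨fun i => lift φ (f i), fun i => hφ.lift_conn _ (h1 i),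
    fun i j hij => hφ.lift_disj _ _ (h2 i j hij), fun i j hij => hφ.lift_adj _ _ (h3 i j hij)⟩

theorem planar (hφ : Model G H φ) (h : Planar G) : Planar H := ⟨hφ.noK5 h.1, hφ.noK33 h.2⟩

end Model

theorem conn_singleton_minor {V : Type} (G : SimpleGraph V) (a : V) :
    (G.induce ({a} : Set V)).Connected := by
  have : Nonempty ({a} : Set V) := ⟨⟨a, rfl⟩⟩
  refine ⟨?_⟩
  rintro ⟨x, hx⟩ ⟨y, hy⟩
  have h1 : x = a := hx
  have h2 : y = a := hy
  subst h1
  subst h2
  exact SimpleGraph.Reachable.refl _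

theorem conn_pair_minor {V : Type} (G : SimpleGraph V) {a b : V} (h : G.Adj a b) :
    (G.induce ({a, b} : Set V)).Connected := by
  have : Nonempty ({a, b} : Set V) := ⟨⟨a, Or.inl rfl⟩⟩
  refine ⟨?_⟩
  have key : (G.induce ({a, b} : Set V)).Adj ⟨a, Or.inl rfl⟩ ⟨b, Or.inr rfl⟩ := h
  rintro ⟨x, hx⟩ ⟨y, hy⟩
  rcases hx with hx | hx <;> rcases hy with hy | hy
  · subst hx
    have hy' : y = x := hy
    subst hy'
    exact SimpleGraph.Reachable.refl _
  · have hx' : x = a := hx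
    have hy' : y = b := hy
    subst hx'
    subst hy'
    exact key.reachable
  · have hx' : x = b := hx
    have hy' : y = a := hy
    subst hx'
    subst hy'
    exact key.reachable.symm
  · have hx' : x = b := hx
    have hy' : y = b := hy
    subst hx'
    subst hy'
    exact SimpleGraph.Reachable.refl _

theorem Planar.mono {V : Type} {G H : SimpleGraph V} (h : H ≤ G) (hG : Planar G) : Planar H := by
  refine Model.planar (φ := fun w => {w}) ⟨fun w => conn_singleton_minor G w, ?_, ?_⟩ hG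
  · intro x y hxy
    rw [Set.disjoint_left]
    intro a ha hb
    exact hxy ((show a = x from ha).symm.trans hb)
  · intro x y hxy
    exact ⟨x, rfl, y, rfl, h hxy⟩

theorem Planar.induce {V : Type} {G : SimpleGraph V} (s : Set V) (hG : Planar G) :
    Planar (G.induce s) := by
  refine Model.planar (φ := fun w : s => {(w : V)}) ⟨fun w => conn_singleton_minor G w, ?_, ?_⟩ hG
  · intro x y hxy
    rw [Set.disjoint_left]
    intro a ha hb
    exact hxy (Subtype.ext ((show a = x from ha).symm.trans hb))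
  · intro x y hxy
    exact ⟨x, rfl, y, rfl, hxy⟩

theorem Planar.contr {V : Type} {G : SimpleGraph V} {u v : V} (huv : G.Adj u v) (hG : Planar G) :
    Planar (Pack.contr G u v) := by
  classical
  refine Model.planar (φ := fun w : {x : V // x ≠ v} =>
    {a : V | a = w ∨ ((w : V) = u ∧ a = v)}) ⟨?_, ?_, ?_⟩ hG
  · intro w
    by_cases hw : (w : V) = u
    · have he : {a : V | a = w ∨ ((w : V) = u ∧ a = v)} = ({u, v} : Set V) := by
        ext a
        simp [hw]
      rw [he]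
      exact conn_pair_minor G huv
    · have he : {a : V | a = w ∨ ((w : V) = u ∧ a = v)} = ({(w : V)} : Set V) := by
        ext a
        simp [hw]
      rw [he]
      exact conn_singleton_minor G w
  · intro x y hxy
    rw [Set.disjoint_left]
    rintro a (ha | ⟨hx, ha⟩) (hb | ⟨hy, hb⟩)
    · exact hxy (Subtype.ext (ha.symm.trans hb))
    · exact x.2 (ha.symm.trans hb)
    · exact y.2 (hb.symm.trans ha)
    · exact hxy (Subtype.ext (hx.trans hy.symm))
  · rintro x y ⟨_, h | ⟨hx, h⟩ | ⟨hy, h⟩⟩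
    · exact ⟨x, Or.inl rfl, y, Or.inl rfl, h⟩
    · exact ⟨v, Or.inr ⟨hx, rfl⟩, y, Or.inl rfl, h⟩
    · exact ⟨x, Or.inl rfl, v, Or.inr ⟨hy, rfl⟩, h.symm⟩

end Pool.Agent.Helper60.Pack
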